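import Pool.Agent.Helper53.Engel.Flow
import Pool.Agent.Helper79.Engel.Variation
import Pool.Agent.Helper61.Liouville.Ode

/-!
# The closed leaf that is kept, and its non-degeneracy
-/

set_option autoImplicit false

open Topology Real Filter
open scoped ContDiff

noncomputable section

namespace Pool.Agent.Helper81.Engel

open Pool.Agent.Helper53.Engel

/-! ### `W` does not vanish -/

lemma kap_pos {P : Par} (h0 : 0 < P.k0) (h1 : 0 < P.k1) (i : Fin 3) : 0 < P.kap i := by
  fin_cases i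
  · exact h1
  · exact h1
  · exact h0

lemma plugW_ne_zero (c κ : ℝ) (hκ : 0 < κ) (u : R2) : plugW c κ u ≠ 0 := by
  intro h
  unfold plugW at h
  dsimp only at h
  obtain ⟨s, hs⟩ : ∃ s, s = rho u := ⟨_, rfl⟩
  rw [← hs] at h
  have hr : (0 : ℝ) < rr := by unfold rr; norm_num
  have hep : (0 : ℝ) < ep := by unfold ep; norm_num
  have h3 : -(2 * u.1 * u.2 * deriv ff s / rr ^ 2) = 0 := congrArg (fun p : V4 => p.2.2.1) h
  have h4 : ff s + 2 * u.1 ^ 2 * deriv ff s / rr ^ 2 = 0 := congrArg (fun p : V4 => p.2.2.2) h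
  have h1 := congrArg (fun p : V4 => p.1) h
  have h2 := congrArg (fun p : V4 => p.2.1) h
  dsimp only at h1 h2
  rw [h3, h4] at h1 h2
  simp only [Prod.fst_zero, Prod.snd_zero, mul_zero, neg_zero, add_zero, zero_mul, zero_sub,
    zero_add, mul_eq_zero, neg_eq_zero] at h1 h2
  have hff0 : ff s ≤ 0 := by
    have : 0 ≤ 2 * u.1 ^ 2 * deriv ff s / rr ^ 2 := by
      have := deriv_ff_nonneg s
      positivity
    linarith
  have hs1 : s ≤ 1 := by
    by_contra hcon
    push Not at hcon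
    linarith [ff_pos s hcon]
  have hf : ff s = ep * (s - 1) := ff_core s (by linarith)
  have hf' : deriv ff s = ep := deriv_ff_core s (by linarith)
  rw [hf'] at h3 h4 h1 h2
  rw [hf] at h4
  have hws : u.2 / rr * ep - κ * (2 * ep * (u.1 / rr) * deriv GG s) = 0 := by
    have hcs := sin_sq_add_cos_sq (om * (c + u.1 * ff s))
    rcases h1 with h1 | h1
    · exact h1
    · rcases h2 with h2 | h2
      · exact h2
      · rw [h1, h2] at hcs
        norm_num at hcs
  have hss : s = (u.1 ^ 2 + u.2 ^ 2) / rr ^ 2 := hs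
  have h12 : u.1 * u.2 = 0 := by
    have h5 : 2 * u.1 * u.2 * ep / rr ^ 2 = 0 := by linarith
    have h6 : 2 * u.1 * u.2 * ep = 0 := by
      rcases div_eq_zero_iff.1 h5 with h | h
      · exact h
      · exfalso
        have : (0 : ℝ) < rr ^ 2 := by positivity
        linarith
    have h7 : u.1 * u.2 * (2 * ep) = 0 := by linarith
    rcases mul_eq_zero.1 h7 with h | h
    · exact h
    · exfalso
      linarith
  rcases mul_eq_zero.1 h12 with h0 | h0
  · rw [h0] at hws h4 hss
    have h8 : u.2 = 0 := by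
      have h9 : u.2 * (ep / rr) = 0 := by
        have : u.2 / rr * ep = 0 := by
          have h10 : κ * (2 * ep * (0 / rr) * deriv GG s) = 0 := by simp
          linarith
        rw [← this]
        ring
      rcases mul_eq_zero.1 h9 with h | h
      · exact h
      · exfalso
        have : 0 < ep / rr := by positivity
        linarith
    rw [h8] at hss
    have h9 : s = 0 := by rw [hss]; simp
    rw [h9] at h4
    simp at h4
    linarith
  · rw [h0] at hws hss
    have h8 : s = u.1 ^ 2 / rr ^ 2 := by rw [hss]; ring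
    have h9 : ep * (s - 1) + 2 * s * ep = 0 := by
      rw [← h4, h8]
      ring
    have h10 : s = 1 / 3 := by
      have : ep * (3 * s - 1) = 0 := by linarith
      rcases mul_eq_zero.1 this with h | h
      · exfalso
        linarith
      · linarith
    rw [h10] at hws h8
    have h11 : κ * (2 * ep * (u.1 / rr) * deriv GG (1 / 3)) = 0 := by
      have : (0 : ℝ) / rr * ep = 0 := by simp
      linarith
    have h12 := deriv_GG_neg
    have h13 : u.1 ≠ 0 := by
      intro h14
      rw [h14] at h8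
      simp at h8
    have h15 : κ * (2 * ep * (u.1 / rr) * deriv GG (1 / 3)) ≠ 0 := by
      have : u.1 / rr ≠ 0 := div_ne_zero h13 hr.ne'
      have : deriv GG (1 / 3) ≠ 0 := h12.ne
      positivity
    exact h15 h11

theorem W_ne_zero (P : Par) (h0 : 0 < P.k0) (h1 : 0 < P.k1) (p : V4) : P.W p ≠ 0 := by
  rcases quiet_or_plug P p with hq | ⟨i, m, n, hp⟩
  · rw [W_quiet P p hq]
    intro h
    have := congrArg (fun p : V4 => p.2.2.2) h
    simp at this
  · rw [W_plug P i m n p hp]
    exact plugW_ne_zero _ _ (kap_pos h0 h1 i) _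

/-! ### the parameters -/

section

variable {P : Par}

lemma om_pos : 0 < om := by unfold om; positivity

lemma bounds0 (hP : P.Good) : 115 / 1000 ≤ P.z0 ∧ P.z0 ≤ 135 / 1000 := by
  have := abs_lt.1 hP.hz0
  constructor <;> linarith [this.1, this.2]

lemma bounds1 (hP : P.Good) : 24 / 100 ≤ P.z1 ∧ P.z1 ≤ 26 / 100 := by
  have := abs_lt.1 hP.hz1
  constructor <;> linarith [this.1, this.2]

lemma om_z0 (hP : P.Good) : 0 < om * P.z0 ∧ om * P.z0 < π := by
  have h := bounds0 hP
  have hpi := pi_pos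
  unfold om
  constructor <;> nlinarith [h.1, h.2]

lemma om_z1 (hP : P.Good) : 0 < om * P.z1 ∧ om * P.z1 < π := by
  have h := bounds1 hP
  have hpi := pi_pos
  unfold om
  constructor <;> nlinarith [h.1, h.2]

lemma cot_sub_pos (hP : P.Good) :
    0 < cos (om * P.z0) / sin (om * P.z0) - cos (om * P.z1) / sin (om * P.z1) := by
  have h0 := sin_pos_of_pos_of_lt_pi (om_z0 hP).1 (om_z0 hP).2
  have h1 := sin_pos_of_pos_of_lt_pi (om_z1 hP).1 (om_z1 hP).2
  have h2 : 0 < sin (om * P.z1 - om * P.z0) := by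
    apply sin_pos_of_pos_of_lt_pi
    · have := bounds0 hP
      have := bounds1 hP
      have hpi := om_pos
      nlinarith
    · linarith [(om_z0 hP).1, (om_z1 hP).2]
  have h3 : cos (om * P.z0) / sin (om * P.z0) - cos (om * P.z1) / sin (om * P.z1) =
      sin (om * P.z1 - om * P.z0) / (sin (om * P.z0) * sin (om * P.z1)) := by
    rw [sin_sub]
    field_simp
  rw [h3]
  positivity

lemma sl_pos (hP : P.Good) : 0 < P.sl := by
  unfold Par.sl
  have := cot_sub_pos hP
  positivity

/-- the cotangent of the angle of the kept leaf -/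
def ww (P : Par) (s : ℝ) : ℝ := 2 / P.sl - P.m1 * mu s

lemma ww_one (hP : P.Good) {s : ℝ} (h : mu s = 1) :
    ww P s = cos (om * P.z0) / sin (om * P.z0) := by
  unfold ww
  rw [h]
  have h1 := cot_sub_pos hP
  have h2 : 2 / P.sl = cos (om * P.z0) / sin (om * P.z0) - cos (om * P.z1) / sin (om * P.z1) := by
    unfold Par.sl
    field_simp
  rw [h2]
  unfold Par.m1
  ring

/-- the angle of the kept leaf -/
def ZZ (P : Par) (s : ℝ) : ℝ := (π / 2 - arctan (ww P s)) / om

lemma kept_eq (s : ℝ) : P.kept s = (0, 0, ZZ P s, s) := rfl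

lemma ZZ_one (hP : P.Good) {s : ℝ} (h : mu s = 1) : ZZ P s = P.z0 := by
  unfold ZZ
  rw [ww_one hP h]
  have h0 := om_z0 hP
  have h1 : cos (om * P.z0) / sin (om * P.z0) = tan (π / 2 - om * P.z0) := by
    rw [tan_pi_div_two_sub, tan_eq_sin_div_cos, inv_div]
  rw [h1, arctan_tan (by linarith [h0.2]) (by linarith [h0.1])]
  have := om_pos
  field_simp
  ring

lemma om_ZZ (s : ℝ) : om * ZZ P s = π / 2 - arctan (ww P s) := by
  unfold ZZ
  have := om_pos
  field_simp

lemma sin_ZZ_sq (s : ℝ) : sin (om * ZZ P s) ^ 2 = 1 / (1 + ww P s ^ 2) := by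
  rw [om_ZZ, sin_pi_div_two_sub, cos_arctan, div_pow, sq_sqrt (by positivity)]
  ring

lemma cos_ZZ_sq (s : ℝ) : cos (om * ZZ P s) ^ 2 = ww P s ^ 2 / (1 + ww P s ^ 2) := by
  rw [om_ZZ, cos_pi_div_two_sub, sin_arctan, div_pow, sq_sqrt (by positivity)]

lemma sin_mul_cos_ZZ (s : ℝ) :
    sin (om * ZZ P s) * cos (om * ZZ P s) = ww P s / (1 + ww P s ^ 2) := by
  rw [om_ZZ, sin_pi_div_two_sub, cos_pi_div_two_sub, sin_arctan, cos_arctan]
  rw [div_mul_div_comm, mul_self_sqrt (by positivity)]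
  ring

lemma hasDerivAt_ww (s : ℝ) : HasDerivAt (ww P) (-(P.m1 * dmu s)) s := by
  unfold ww
  exact ((hasDerivAt_mu s).const_mul P.m1).const_sub _

lemma hasDerivAt_ZZ (s : ℝ) : HasDerivAt (ZZ P) (P.m1 * dmu s / (1 + ww P s ^ 2) / om) s := by
  unfold ZZ
  have h := (((hasDerivAt_ww (P := P) s).arctan).const_sub (π / 2)).div_const om
  refine h.congr_deriv ?_
  ring

lemma tb_mem (t : ℝ) : 1 / 4 ≤ tb t ∧ tb t ≤ 5 / 4 := by
  unfold tb
  have := abs_le.1 (abs_nr_le (t - 3 / 4))
  constructor <;> linarith [this.1, this.2]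

lemma chi2_or_mu (t : ℝ) : chi2 t = 0 ∨ mu t = 0 := by
  unfold chi2 mu
  rcases le_or_gt (tb t) (5 / 8) with h | h
  · left
    exact stp_deriv_left (by norm_num) h
  · rcases le_or_gt (7 / 8) (tb t) with h' | h'
    · left
      exact stp_deriv_right (by norm_num) h'
    · right
      rw [stp_one (by norm_num) h.le, stp_zero (by norm_num) h'.le]
      ring

lemma zdot_kept (hP : P.Good) (s : ℝ) :
    P.zdot s 0 0 (ZZ P s) = P.m1 * dmu s / (1 + ww P s ^ 2) / om := by
  unfold Par.zdot fXx gYy Par.fXy Par.bex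
  have h1 := sin_mul_cos_ZZ (P := P) s
  have h2 := cos_ZZ_sq (P := P) s
  have h3 := sin_ZZ_sq (P := P) s
  have hD : (0 : ℝ) < 1 + ww P s ^ 2 := by positivity
  have hom := om_pos
  have hsl := sl_pos hP
  simp only [mul_zero, cos_zero, sin_zero]
  rw [mul_assoc _ (sin _) (cos _), h1, h2, h3]
  congr 1
  rcases chi2_or_mu s with h | h
  · rw [h]
    ring
  · have hw : ww P s = 2 / P.sl := by unfold ww; rw [h]; ring
    rw [hw]
    field_simp
    ring

/-! ### the kept orbit stays away from the plugs -/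

lemma nr_ge {u k : ℝ} {n : ℤ} (hk : k ≤ u - n) (hk' : u - n ≤ 1 - k) : k ≤ |nr u| := by
  obtain ⟨m, hm⟩ := nr_exists u
  rw [hm]
  rcases le_or_gt m n with h | h
  · have h4 : (m : ℝ) ≤ n := by exact_mod_cast h
    rw [le_abs]
    left
    linarith
  · have h4 : (n : ℝ) + 1 ≤ m := by exact_mod_cast h
    rw [le_abs]
    right
    linarith

lemma z0_far (hP : P.Good) (i : Fin 3) : 1 / 10 ≤ |nr (P.z0 - (P.cen i).1)| := by
  have h0 := bounds0 hP
  have h1 := bounds1 hP
  fin_cases i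
  · apply nr_ge (n := -1)
    · simp [Par.cen]
      linarith
    · simp [Par.cen]
      linarith
  · apply nr_ge (n := -1)
    · simp [Par.cen]
      linarith
    · simp [Par.cen]
      linarith
  · apply nr_ge (n := -1)
    · simp [Par.cen]
      linarith
    · simp [Par.cen]
      linarith

lemma base_far {t : ℝ} {j : ℤ} (h : t ∈ Set.Icc (j + 1 / 2 : ℝ) (j + 1)) (i : Fin 3) :
    1 / 10 ≤ |nr (t - (P.cen i).2)| := by
  obtain ⟨h1, h2⟩ := cen_snd_mem P i
  apply nr_ge (n := j)
  · linarith [h.1]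
  · linarith [h.2]

lemma slot_cases (t : ℝ) : ∃ j : ℤ, t ∈ Set.Icc (j : ℝ) (j + 1 / 2) ∨
    t ∈ Set.Icc (j + 1 / 2 : ℝ) (j + 1) := by
  refine ⟨⌊t⌋, ?_⟩
  have h1 := Int.floor_le t
  have h2 := Int.lt_floor_add_one t
  rcases le_or_gt t (⌊t⌋ + 1 / 2) with h | h
  · exact Or.inl ⟨h1, h⟩
  · exact Or.inr ⟨h.le, h2.le⟩

lemma quiet_near (hP : P.Good) (t : ℝ) {q : R2} (h1 : |q.1 - ZZ P t| ≤ 1 / 20)
    (h2 : |q.2 - t| ≤ 1 / 20) : Quiet P q := by
  intro i
  obtain ⟨j, h | h⟩ := slot_cases t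
  · left
    have h3 := z0_far hP i
    rw [← ZZ_one hP (mu_slot h)] at h3
    have h4 := abs_nr_sub_le (ZZ P t - (P.cen i).1) (q.1 - (P.cen i).1)
    have h5 : ZZ P t - (P.cen i).1 - (q.1 - (P.cen i).1) = -(q.1 - ZZ P t) := by ring
    rw [h5, abs_neg] at h4
    linarith
  · right
    have h3 := base_far (P := P) h i
    have h4 := abs_nr_sub_le (t - (P.cen i).2) (q.2 - (P.cen i).2)
    have h5 : t - (P.cen i).2 - (q.2 - (P.cen i).2) = -(q.2 - t) := by ring
    rw [h5, abs_neg] at h4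
    linarith

lemma quiet_kept (hP : P.Good) (t : ℝ) : Quiet P (P.kept t).2.2 := by
  apply quiet_near hP t
  · simp [kept_eq]
  · simp [kept_eq]

end

/-- the field `W` away from the plugs -/
def BB (P : Par) (p : V4) : V4 :=
  (chi2 p.2.2.2 * P.fX p.1 p.2.1, chi2 p.2.2.2 * gY p.2.1 + dmu p.2.2.2 * P.be p.1,
      P.zdot p.2.2.2 p.1 p.2.1 p.2.2.1, 1)

lemma W_kept {P : Par} (hP : P.Good) (s : ℝ) :
    P.W (P.kept s) = (0, 0, P.m1 * dmu s / (1 + ww P s ^ 2) / om, 1) := by
  rw [W_quiet P _ (quiet_kept hP s), kept_eq]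
  dsimp only
  rw [zdot_kept hP]
  unfold Par.fX gY Par.be
  simp

/-! ### the derivative of `W` along the kept orbit -/

lemma quiet_eventually {P : Par} {q : R2} (h : Quiet P q) : ∀ᶠ q' in 𝓝 q, Quiet P q' := by
  unfold Quiet
  rw [eventually_all]
  intro i
  rcases h i with h | h
  · have hc : Continuous fun q' : R2 => |nr (q'.1 - (P.cen i).1)| :=
      continuous_abs_nr.comp (by fun_prop)
    filter_upwards [hc.continuousAt.eventually_const_lt h] with q' hq'
    exact Or.inl hq'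
  · have hc : Continuous fun q' : R2 => |nr (q'.2 - (P.cen i).2)| :=
      continuous_abs_nr.comp (by fun_prop)
    filter_upwards [hc.continuousAt.eventually_const_lt h] with q' hq'
    exact Or.inr hq'

lemma W_eventually {P : Par} (hP : P.Good) (t : ℝ) : P.W =ᶠ[𝓝 (P.kept t)] BB P := by
  have hc : Continuous fun p : V4 => p.2.2 := by fun_prop
  filter_upwards [hc.continuousAt.eventually (quiet_eventually (quiet_kept hP t))] with p hp
  exact W_quiet P p hp

lemma hasDerivAt_fXx_line (a b r : ℝ) (hr : r = 0) :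
    HasDerivAt (fun r => fXx (a * r) (b * r)) 0 r := by
  unfold fXx
  have h1 : HasDerivAt (fun r : ℝ => 2 * π * (a * r)) (2 * π * a) r := by
    simpa using ((hasDerivAt_id r).const_mul a).const_mul (2 * π)
  have h2 : HasDerivAt (fun r : ℝ => π * (b * r)) (π * b) r := by
    simpa using ((hasDerivAt_id r).const_mul b).const_mul π
  refine (h1.cos.mul (h2.cos.pow 2)).congr_deriv ?_
  rw [hr]
  simp

lemma hasDerivAt_gYy_line (b r : ℝ) (hr : r = 0) :
    HasDerivAt (fun r => gYy (b * r)) 0 r := by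
  unfold gYy
  have h1 : HasDerivAt (fun r : ℝ => 2 * π * (b * r)) (2 * π * b) r := by
    simpa using ((hasDerivAt_id r).const_mul b).const_mul (2 * π)
  refine (h1.cos.neg).congr_deriv ?_
  rw [hr]
  simp

lemma hasDerivAt_fXy_line (P : Par) (a b r : ℝ) (hr : r = 0) :
    HasDerivAt (fun r => P.fXy (a * r) (b * r)) (2 * √2 * π ^ 2 * b) r := by
  unfold Par.fXy
  have h1 : HasDerivAt (fun r : ℝ => 2 * π * (a * r)) (2 * π * a) r := by
    simpa using ((hasDerivAt_id r).const_mul a).const_mul (2 * π)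
  have h2 : HasDerivAt (fun r : ℝ => 2 * π * (b * r)) (2 * π * b) r := by
    simpa using ((hasDerivAt_id r).const_mul b).const_mul (2 * π)
  refine ((((h1.sin.mul h2.sin).div_const 2).neg.add (h2.sin.const_mul (√2 * π))).add
    (h2.cos.const_mul P.sl)).congr_deriv ?_
  rw [hr]
  simp
  ring

lemma hasDerivAt_bex_line (P : Par) (a r : ℝ) (hr : r = 0) :
    HasDerivAt (fun r => P.bex (a * r)) 0 r := by
  unfold Par.bex
  have h1 : HasDerivAt (fun r : ℝ => 4 * π * (a * r)) (4 * π * a) r := by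
    simpa using ((hasDerivAt_id r).const_mul a).const_mul (4 * π)
  refine (h1.cos.const_mul P.m1).congr_deriv ?_
  rw [hr]
  simp

lemma hasDerivAt_fX_line (P : Par) (a b r : ℝ) (hr : r = 0) :
    HasDerivAt (fun r => P.fX (a * r) (b * r)) (a + P.sl * b) r := by
  unfold Par.fX
  have h1 : HasDerivAt (fun r : ℝ => 2 * π * (a * r)) (2 * π * a) r := by
    simpa using ((hasDerivAt_id r).const_mul a).const_mul (2 * π)
  have h2 : HasDerivAt (fun r : ℝ => π * (b * r)) (π * b) r := by
    simpa using ((hasDerivAt_id r).const_mul b).const_mul π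
  have h3 : HasDerivAt (fun r : ℝ => 2 * π * (b * r)) (2 * π * b) r := by
    simpa using ((hasDerivAt_id r).const_mul b).const_mul (2 * π)
  refine ((((h1.sin.mul (h2.cos.pow 2)).div_const (2 * π)).add
    ((h2.sin.pow 2).const_mul √2)).add ((h3.sin.const_mul P.sl).div_const (2 * π))).congr_deriv ?_
  rw [hr]
  simp
  have := pi_ne_zero
  field_simp

lemma hasDerivAt_gY_line (b r : ℝ) (hr : r = 0) :
    HasDerivAt (fun r => gY (b * r)) (-b) r := by
  unfold gY
  have h3 : HasDerivAt (fun r : ℝ => 2 * π * (b * r)) (2 * π * b) r := by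
    simpa using ((hasDerivAt_id r).const_mul b).const_mul (2 * π)
  refine ((h3.sin.div_const (2 * π)).neg).congr_deriv ?_
  rw [hr]
  simp

lemma hasDerivAt_be_line (P : Par) (a r : ℝ) (hr : r = 0) :
    HasDerivAt (fun r => P.be (a * r)) (P.m1 * a) r := by
  unfold Par.be
  have h3 : HasDerivAt (fun r : ℝ => 4 * π * (a * r)) (4 * π * a) r := by
    simpa using ((hasDerivAt_id r).const_mul a).const_mul (4 * π)
  refine ((h3.sin.const_mul P.m1).div_const (4 * π)).congr_deriv ?_
  rw [hr]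
  simp
  have := pi_ne_zero
  field_simp

/-- derivative of the angular velocity -/
lemma hasDerivAt_zdot_line {P : Par} (hP : P.Good) (a b c t r : ℝ) (hr : r = 0) :
    HasDerivAt (fun r => P.zdot t (a * r) (b * r) (ZZ P t + c * r))
      (-(chi2 t * (2 * √2 * π ^ 2 / om * (4 / P.sl ^ 2)) * b / (1 + ww P t ^ 2)) +
        (2 * chi2 t + 2 * dmu t * P.m1 * ww P t / (1 + ww P t ^ 2)) * c) r := by
  have hz : HasDerivAt (fun r : ℝ => om * (ZZ P t + c * r)) (om * c) r := by
    simpa using (((hasDerivAt_id r).const_mul c).const_add (ZZ P t)).const_mul om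
  unfold Par.zdot
  have h1 := (((hasDerivAt_fXx_line a b r hr).sub (hasDerivAt_gYy_line b r hr)).mul hz.sin).mul
    hz.cos
  have h2 := (hasDerivAt_fXy_line P a b r hr).mul (hz.cos.pow 2)
  have h3 := ((hasDerivAt_bex_line P a r hr).const_mul (dmu t)).mul (hz.sin.pow 2)
  refine (((((h1.sub h2).const_mul (chi2 t)).add h3)).div_const om).congr_deriv ?_
  have e1 := sin_mul_cos_ZZ (P := P) t
  have e2 := cos_ZZ_sq (P := P) t
  have e3 := sin_ZZ_sq (P := P) t
  have hD : (0 : ℝ) < 1 + ww P t ^ 2 := by positivity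
  have hom := om_pos
  have hsl := sl_pos hP
  rw [hr]
  unfold fXx gYy Par.fXy Par.bex
  simp only [Pi.mul_apply, Pi.sub_apply, Pi.pow_apply, mul_zero, add_zero, cos_zero, sin_zero]
  have e4 : chi2 t * ww P t = chi2 t * (2 / P.sl) := by
    rcases chi2_or_mu t with h | h
    · rw [h]
      ring
    · unfold ww
      rw [h]
      ring
  generalize sin (om * ZZ P t) = S at *
  generalize cos (om * ZZ P t) = C at *
  have e5 : (chi2 t * (2 * c * (C ^ 2 - S ^ 2) - 2 * √2 * π ^ 2 / om * b * C ^ 2 +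
      2 * P.sl * c * (S * C)) + 2 * dmu t * P.m1 * c * (S * C)) =
      -(chi2 t * (2 * √2 * π ^ 2 / om * (4 / P.sl ^ 2)) * b / (1 + ww P t ^ 2)) +
      (2 * chi2 t + 2 * dmu t * P.m1 * ww P t / (1 + ww P t ^ 2)) * c := by
    rw [e1, e2, e3]
    have e6 : chi2 t * ww P t ^ 2 = chi2 t * (4 / P.sl ^ 2) := by
      linear_combination (ww P t + 2 / P.sl) * e4
    have e7 : P.sl * (chi2 t * ww P t) = 2 * chi2 t := by
      rw [e4]
      field_simp
    have e8 : chi2 t * (2 * c * (ww P t ^ 2 / (1 + ww P t ^ 2) - 1 / (1 + ww P t ^ 2)) -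
        2 * √2 * π ^ 2 / om * b * (ww P t ^ 2 / (1 + ww P t ^ 2)) +
        2 * P.sl * c * (ww P t / (1 + ww P t ^ 2))) =
        (2 * c * (chi2 t * ww P t ^ 2 - chi2 t) - 2 * √2 * π ^ 2 / om * b * (chi2 t * ww P t ^ 2) +
          2 * c * (P.sl * (chi2 t * ww P t))) / (1 + ww P t ^ 2) := by
      ring
    rw [e8, e7, e6]
    have e9 : 2 * c * (chi2 t * (4 / P.sl ^ 2) - chi2 t) + 2 * c * (2 * chi2 t) =
        2 * c * chi2 t * (1 + ww P t ^ 2) := by
      linear_combination (-2 * c) * e6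
    have e10 : (2 * c * (chi2 t * (4 / P.sl ^ 2) - chi2 t) -
        2 * √2 * π ^ 2 / om * b * (chi2 t * (4 / P.sl ^ 2)) + 2 * c * (2 * chi2 t)) /
        (1 + ww P t ^ 2) = 2 * c * chi2 t -
          2 * √2 * π ^ 2 / om * b * (chi2 t * (4 / P.sl ^ 2)) / (1 + ww P t ^ 2) := by
      rw [eq_sub_iff_add_eq, ← add_div, div_eq_iff hD.ne', ← e9]
      ring
    rw [e10]
    ring
  rw [← e5]
  field_simp
  ring

/-- `∂y` of the angular velocity, up to a factor -/
def kk (P : Par) : ℝ := 2 * √2 * π ^ 2 / om * (4 / P.sl ^ 2)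

lemma fderiv_W_kept {P : Par} (hP : P.Good) (t a b c : ℝ) :
    fderiv ℝ P.W (P.kept t) (a, b, c, 0) =
      (chi2 t * (a + P.sl * b), chi2 t * (-b) + dmu t * (P.m1 * a),
        -(chi2 t * kk P * b / (1 + ww P t ^ 2)) +
          (2 * chi2 t + 2 * dmu t * P.m1 * ww P t / (1 + ww P t ^ 2)) * c, 0) := by
  have hid : ∀ k : ℝ, HasDerivAt (fun r : ℝ => k * r) k 0 := fun k => by
    simpa using (hasDerivAt_id (0 : ℝ)).const_mul k
  have hl : HasDerivAt (fun r : ℝ => ((a * r, b * r, ZZ P t + c * r, t) : V4)) (a, b, c, 0) 0 :=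
    (hid a).prodMk ((hid b).prodMk (((hid c).const_add (ZZ P t)).prodMk (hasDerivAt_const 0 t)))
  have hl0 : ((a * 0, b * 0, ZZ P t + c * 0, t) : V4) = P.kept t := by
    rw [kept_eq]
    simp
  have hd : DifferentiableAt ℝ P.W (a * 0, b * 0, ZZ P t + c * 0, t) :=
    P.W_smooth.differentiable (by simp) _
  have h1 : HasDerivAt (fun r : ℝ => P.W (a * r, b * r, ZZ P t + c * r, t))
      (fderiv ℝ P.W (a * 0, b * 0, ZZ P t + c * 0, t) (a, b, c, 0)) 0 :=
    hd.hasFDerivAt.comp_hasDerivAt (0 : ℝ) hl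
  rw [hl0] at h1
  have h2 : (fun r : ℝ => P.W (a * r, b * r, ZZ P t + c * r, t)) =ᶠ[𝓝 0]
      fun r : ℝ => BB P (a * r, b * r, ZZ P t + c * r, t) := by
    have h3 := hl.continuousAt
    have h4 : Tendsto (fun r : ℝ => ((a * r, b * r, ZZ P t + c * r, t) : V4)) (𝓝 0)
        (𝓝 (P.kept t)) := by
      rw [← hl0]
      exact h3
    exact h4.eventually (W_eventually hP t)
  have h5 : HasDerivAt (fun r : ℝ => BB P (a * r, b * r, ZZ P t + c * r, t))
      (chi2 t * (a + P.sl * b), chi2 t * (-b) + dmu t * (P.m1 * a),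
        -(chi2 t * kk P * b / (1 + ww P t ^ 2)) +
          (2 * chi2 t + 2 * dmu t * P.m1 * ww P t / (1 + ww P t ^ 2)) * c, 0) 0 := by
    unfold BB kk
    dsimp only
    exact ((hasDerivAt_fX_line P a b 0 rfl).const_mul (chi2 t)).prodMk
      ((((hasDerivAt_gY_line b 0 rfl).const_mul (chi2 t)).add
        ((hasDerivAt_be_line P a 0 rfl).const_mul (dmu t))).prodMk
        ((hasDerivAt_zdot_line hP a b c t 0 rfl).prodMk (hasDerivAt_const 0 (1 : ℝ))))
  exact h1.unique (h5.congr_of_eventuallyEq h2)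

/-! ### the linearized flow along the kept orbit -/

/-- the transfer matrix -/
def MM (P : Par) (E F μ w : ℝ) : V4 →L[ℝ] V4 :=
  let q : V4 →L[ℝ] ℝ := pry - P.m1 • prx
  let u : V4 →L[ℝ] ℝ := (2 : ℝ) • prx + P.sl • q
  let vx : V4 →L[ℝ] ℝ := (1 / 2 : ℝ) • (E • u - (P.sl * F) • q)
  let vy : V4 →L[ℝ] ℝ := F • q + (μ * P.m1) • vx
  let vz : V4 →L[ℝ] ℝ := (1 + w ^ 2)⁻¹ • ((E ^ 2) • ((1 + ww P (1 / 2) ^ 2) • prz - (kk P / 3) • q) +
    (kk P / 3 * F) • q)
  vx.prod (vy.prod (vz.prod 0))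

lemma MM_apply (P : Par) (E F μ w : ℝ) (v : V4) : MM P E F μ w v =
    ((E * (2 * v.1 + P.sl * (v.2.1 - P.m1 * v.1)) - P.sl * F * (v.2.1 - P.m1 * v.1)) / 2,
      F * (v.2.1 - P.m1 * v.1) + μ * P.m1 *
        ((E * (2 * v.1 + P.sl * (v.2.1 - P.m1 * v.1)) - P.sl * F * (v.2.1 - P.m1 * v.1)) / 2),
      (E ^ 2 * ((1 + ww P (1 / 2) ^ 2) * v.2.2.1 - kk P / 3 * (v.2.1 - P.m1 * v.1)) +
        kk P / 3 * F * (v.2.1 - P.m1 * v.1)) / (1 + w ^ 2), 0) := by
  obtain ⟨a, b, c, d⟩ := v
  have h1 : prx (a, b, c, d) = a := rfl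
  have h2 : pry (a, b, c, d) = b := rfl
  have h3 : prz (a, b, c, d) = c := rfl
  unfold MM
  simp only [ContinuousLinearMap.prod_apply, add_apply,
    sub_apply, smul_apply, zero_apply,
    h1, h2, h3, smul_eq_mul]
  refine Prod.ext ?_ (Prod.ext ?_ (Prod.ext ?_ rfl))
  · dsimp only
    ring
  · dsimp only
    ring
  · dsimp only
    rw [inv_mul_eq_div]

lemma chi2_eq {t : ℝ} (h : t ∈ Set.Icc (1 / 2 : ℝ) (3 / 2)) :
    deriv (stp (5 / 8) (7 / 8)) t = chi2 t := by
  rcases le_or_gt t 1 with h1 | h1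
  · have h2 : |t - 3 / 4 - ((0 : ℤ) : ℝ)| < 1 / 2 := by
      rw [abs_lt]
      push_cast
      constructor <;> linarith [h.1]
    unfold chi2
    rw [tb_eq h2]
    simp
  · rw [stp_deriv_right (by norm_num) (by linarith), chi2_slot (n := 1)]
    push_cast
    constructor <;> linarith [h.2]

lemma MM_ode {P : Par} (hP : P.Good) (v : V4) {t : ℝ} (ht : t ∈ Set.Icc (1 / 2 : ℝ) (3 / 2)) :
    HasDerivAt (fun t => MM P (exp (stp (5 / 8) (7 / 8) t)) (exp (-stp (5 / 8) (7 / 8) t)) (mu t)
      (ww P t) v) (fderiv ℝ P.W (P.kept t) (MM P (exp (stp (5 / 8) (7 / 8) t))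
        (exp (-stp (5 / 8) (7 / 8) t)) (mu t) (ww P t) v)) t := by
  have hA : HasDerivAt (stp (5 / 8) (7 / 8)) (chi2 t) t := by
    rw [← chi2_eq ht]
    exact stp_hasDerivAt _ _ _
  have hE := hA.exp
  have hF := hA.neg.exp
  have hmu := hasDerivAt_mu t
  have hw := hasDerivAt_ww (P := P) t
  have hD : (0 : ℝ) < 1 + ww P t ^ 2 := by positivity
  obtain ⟨q, hq⟩ : ∃ q, q = v.2.1 - P.m1 * v.1 := ⟨_, rfl⟩
  obtain ⟨u, hu⟩ : ∃ u, u = 2 * v.1 + P.sl * q := ⟨_, rfl⟩
  obtain ⟨g, hg⟩ : ∃ g, g = (1 + ww P (1 / 2) ^ 2) * v.2.2.1 - kk P / 3 * q := ⟨_, rfl⟩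
  simp only [MM_apply, ← hq, ← hu, ← hg]
  rw [fderiv_W_kept hP]
  have hx := ((hE.mul_const u).sub ((hF.const_mul P.sl).mul_const q)).div_const 2
  have hy := (hF.mul_const q).add ((hmu.mul_const P.m1).mul hx)
  have hz := ((((hE.pow 2).mul_const g).add ((hF.const_mul (kk P / 3)).mul_const q))).div
    ((hw.pow 2).const_add 1) hD.ne'
  refine (hx.prodMk (hy.prodMk (hz.prodMk (hasDerivAt_const t (0 : ℝ))))).congr_deriv ?_
  refine Prod.ext ?_ (Prod.ext ?_ (Prod.ext ?_ rfl))
  · simp only [Pi.neg_apply]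
    rcases chi2_or_mu t with h | h
    · rw [h]
      ring
    · rw [h]
      ring
  · simp only [Pi.sub_apply, Pi.neg_apply]
    rcases chi2_or_mu t with h | h
    · rw [h]
      ring
    · rw [h]
      ring
  · simp only [Pi.add_apply, Pi.pow_apply, Pi.neg_apply]
    rcases chi2_or_mu t with h | h
    · rw [h]
      field_simp
      ring
    · rw [h]
      field_simp
      ring

end Pool.Agent.Helper81.Engel

namespace Pool.Agent.Helper53.Engel

open Pool.Agent.Helper81.Engel

theorem kept_orbit (P : Par) (hP : P.Good) :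
    (∀ s, HasDerivAt P.kept (P.W (P.kept s)) s) ∧ (∀ s, P.kept (s + 1) = P.kept s + (0, 0, 0, 1)) ∧
      P.kept (1 / 2) = (0, 0, P.z0, 1 / 2) := by
  refine ⟨fun s => ?_, fun s => ?_, ?_⟩
  · rw [W_kept hP]
    have h := (hasDerivAt_const s (0 : ℝ)).prodMk ((hasDerivAt_const s (0 : ℝ)).prodMk
      ((hasDerivAt_ZZ (P := P) s).prodMk (hasDerivAt_id s)))
    exact h
  · have h1 : mu (s + 1) = mu s := by
      have := mu_add_int s 1
      simpa using this
    have h2 : ZZ P (s + 1) = ZZ P s := by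
      unfold ZZ ww
      rw [h1]
    rw [kept_eq, kept_eq, h2]
    simp
  · have h1 : mu (1 / 2) = 1 := by
      apply mu_slot (n := 0)
      constructor <;> norm_num
    rw [kept_eq, ZZ_one hP h1]

theorem kept_nondegenerate (P : Par) (hP : P.Good) :
    IsNondegenerate P.LW {p | ∃ s, ∃ n ∈ Lat, p = P.kept s + n} := by
  obtain ⟨hk, hk1, hk2⟩ := kept_orbit P hP
  obtain ⟨K, hK⟩ := W_lipschitz P
  obtain ⟨C, hC0, hC⟩ := periodic_bounded (F := P.W) P.W_smooth.continuous (W_periodic P)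
  have ex : ∀ p, ∃ γ : ℝ → V4, γ 0 = p ∧ ∀ s, HasDerivAt γ (P.W (γ s)) s := fun p =>
    Pool.Agent.Helper61.ode_global (fun _ => P.W)
      (fun T => ⟨K, ⟨C, hC0.le⟩, fun _ _ => hK, fun _ _ x => hC x⟩) (fun x => continuous_const) p
  choose fl hfl0 hfl using ex
  have hγ : ∀ s, HasDerivAt (fun s => P.kept (1 / 2 + s)) (P.W (P.kept (1 / 2 + s))) s := fun s =>
    (hk (1 / 2 + s)).comp_const_add (1 / 2) s
  obtain ⟨H, hH⟩ : ∃ H : Submodule ℝ V4, H = LinearMap.ker (prt : V4 →ₗ[ℝ] ℝ) := ⟨_, rfl⟩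
  have memH : ∀ v : V4, v ∈ H ↔ v.2.2.2 = 0 := by
    intro v
    rw [hH, LinearMap.mem_ker]
    rfl
  let πH : V4 →L[ℝ] H := ContinuousLinearMap.codRestrict (prx.prod (pry.prod (prz.prod 0))) H
    (fun v => (memH _).2 rfl)
  have πH_apply : ∀ v : V4, (πH v : V4) = (v.1, v.2.1, v.2.2.1, 0) := fun v => rfl
  have hmu1 : mu (1 / 2) = 1 := by
    apply mu_slot (n := 0)
    constructor <;> norm_num
  have hmu3 : mu (3 / 2) = 1 := by
    apply mu_slot (n := 1)
    constructor <;> norm_num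
  have hw3 : ww P (3 / 2) = ww P (1 / 2) := by
    unfold ww
    rw [hmu1, hmu3]
  let Φ : H → V4 := fun v => fl (P.kept (1 / 2) + v) 1 - P.kept (1 / 2 + 1)
  let M1 : V4 →L[ℝ] V4 := MM P (exp 1) (exp (-1)) 1 (ww P (1 / 2))
  have hΦ : HasFDerivAt Φ (M1.comp H.subtypeL) 0 := by
    refine hasFDerivAt_flow (V := V4) (F := H) (W := P.W) (K := K)
      (γ := fun s => P.kept (1 / 2 + s)) (P.W_smooth.of_le (by simp)) hK
      (fun s _ => (hγ s).hasDerivWithinAt) H.subtypeL (M1.comp H.subtypeL)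
      (fun v s => MM P (exp (stp (5 / 8) (7 / 8) (1 / 2 + s)))
        (exp (-stp (5 / 8) (7 / 8) (1 / 2 + s))) (mu (1 / 2 + s)) (ww P (1 / 2 + s)) v)
      ?_ ?_ ?_ Φ ?_
    · intro v s hs
      have ht : 1 / 2 + s ∈ Set.Icc (1 / 2 : ℝ) (3 / 2) := by
        constructor <;> linarith [hs.1, hs.2]
      exact ((MM_ode hP (v : V4) ht).comp_const_add (1 / 2) s).hasDerivWithinAt
    · intro v
      have h0 : ((v : V4)).2.2.2 = 0 := (memH _).1 v.2
      rw [add_zero, stp_zero (by norm_num) (by norm_num), hmu1, MM_apply]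
      simp only [exp_zero, neg_zero]
      have hD : (0 : ℝ) < 1 + ww P (1 / 2) ^ 2 := by positivity
      refine Prod.ext ?_ (Prod.ext ?_ (Prod.ext ?_ ?_))
      · simp only [Submodule.subtypeL_apply]
        ring
      · simp only [Submodule.subtypeL_apply]
        ring
      · simp only [Submodule.subtypeL_apply]
        field_simp
        ring
      · simp only [Submodule.subtypeL_apply]
        exact h0.symm
    · intro v
      have h1 : (1 / 2 + 1 : ℝ) = 3 / 2 := by norm_num
      rw [h1, stp_one (by norm_num) (by norm_num), hmu3, hw3]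
      rfl
    · refine Eventually.of_forall fun v => ⟨fl (P.kept (1 / 2) + v), ?_,
        fun s _ => (hfl _ s).hasDerivWithinAt, ?_⟩
      · rw [hfl0, add_zero]
        rfl
      · simp only [Φ]
        abel
  refine ⟨P.kept (1 / 2), ⟨1 / 2, 0, zero_mem_Lat, by rw [add_zero]⟩, P.W, H, fun v => πH (Φ v),
    πH.comp (M1.comp H.subtypeL), ⟨P.W_smooth, fun p => Submodule.mem_span_singleton_self _⟩,
    W_ne_zero P hP.hk0 hP.hk1, fun q n hn => W_periodic P q n hn, ?_, ?_,
    πH.hasFDerivAt.comp 0 hΦ, ?_⟩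
  · have hW := W_kept hP (1 / 2)
    have hWt : (P.W (P.kept (1 / 2))).2.2.2 = 1 := by rw [hW]
    rw [isCompl_iff, disjoint_iff, codisjoint_iff]
    constructor
    · rw [eq_bot_iff]
      intro v hv
      obtain ⟨h1, h2⟩ := Submodule.mem_inf.1 hv
      obtain ⟨a, rfl⟩ := Submodule.mem_span_singleton.1 h2
      have h3 := (memH _).1 h1
      have h4 : (a • P.W (P.kept (1 / 2))).2.2.2 = a * (P.W (P.kept (1 / 2))).2.2.2 := rfl
      rw [h4, hWt, mul_one] at h3
      rw [h3, zero_smul]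
      exact Submodule.zero_mem _
    · rw [eq_top_iff]
      intro v _
      have h5 : v = (v - v.2.2.2 • P.W (P.kept (1 / 2))) + v.2.2.2 • P.W (P.kept (1 / 2)) := by
        abel
      rw [h5]
      apply Submodule.add_mem_sup
      · rw [memH]
        have h4 : (v - v.2.2.2 • P.W (P.kept (1 / 2))).2.2.2 =
          v.2.2.2 - v.2.2.2 * (P.W (P.kept (1 / 2))).2.2.2 := rfl
        rw [h4, hWt]
        ring
      · exact Submodule.smul_mem _ _ (Submodule.mem_span_singleton_self _)
  · refine ⟨fun s => P.kept (1 / 2 + s), 1, fun _ => 1, one_pos, ?_, hγ, ?_, ?_, rfl,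
      continuousAt_const, ?_⟩
    · simp only [add_zero]
    · refine ⟨0, 0, 0, 1, ?_⟩
      simp only [hk1]
      simp
    · intro s h0 h1 hmem
      obtain ⟨a, b, c, d, h⟩ := hmem
      have h2 := congrArg (fun p : V4 => p.2.2.2) h
      simp only [kept_eq] at h2
      have h3 : (1 / 2 + s) - 1 / 2 = (d : ℝ) := h2
      have h4 : s = (d : ℝ) := by linarith
      rw [h4] at h0 h1
      have h5 : 0 < d := by exact_mod_cast h0
      have h6 : d < 1 := by exact_mod_cast h1
      omega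
    · have hsmall : ∀ᶠ v : H in 𝓝 0, ‖(v : V4)‖ * exp K < 1 / 20 := by
        have hc : Continuous fun v : H => ‖(v : V4)‖ * exp K := by fun_prop
        have := hc.continuousAt (x := (0 : H))
        apply this.eventually_lt_const
        simp
      filter_upwards [hsmall] with v hv
      refine ⟨fl (P.kept (1 / 2) + v), hfl0 _, hfl _, ?_⟩
      have hcont : Continuous (fl (P.kept (1 / 2) + v)) :=
        continuous_iff_continuousAt.2 fun s => (hfl _ s).continuousAt
      have hcγ : Continuous (fun s => P.kept (1 / 2 + s)) :=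
        continuous_iff_continuousAt.2 fun s => (hγ s).continuousAt
      have hdist : ∀ s ∈ Set.Icc (0 : ℝ) 1,
          dist (fl (P.kept (1 / 2) + v) s) (P.kept (1 / 2 + s)) ≤ 1 / 20 := by
        intro s hs
        have h := dist_le_of_trajectories_ODE (v := fun _ => P.W) (K := K) (a := 0) (b := 1)
          (f := fl (P.kept (1 / 2) + v)) (g := fun s => P.kept (1 / 2 + s))
          (δ := ‖(v : V4)‖) (fun _ => hK) hcont.continuousOn
          (fun t ht => (hfl _ t).hasDerivWithinAt) hcγ.continuousOn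
          (fun t ht => (hγ t).hasDerivWithinAt) (by
            rw [hfl0, dist_eq_norm]
            simp) s hs
        refine h.trans (le_trans ?_ hv.le)
        apply mul_le_mul_of_nonneg_left _ (norm_nonneg _)
        apply Real.exp_le_exp.2
        have hK0 : (0 : ℝ) ≤ K := K.2
        nlinarith [hs.1, hs.2]
      have hWt : ∀ s ∈ Set.Icc (0 : ℝ) 1, (P.W (fl (P.kept (1 / 2) + v) s)).2.2.2 = 1 := by
        intro s hs
        have h1 := hdist s hs
        rw [W_quiet P _ (quiet_near hP (1 / 2 + s) ?_ ?_)]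
        · have h2 : |(fl (P.kept (1 / 2) + v) s).2.2.1 - (P.kept (1 / 2 + s)).2.2.1| ≤
              dist (fl (P.kept (1 / 2) + v) s) (P.kept (1 / 2 + s)) := by
            rw [← Real.dist_eq]
            exact (le_max_left _ _).trans ((le_max_right _ _).trans (le_max_right _ _))
          exact h2.trans h1
        · have h2 : |(fl (P.kept (1 / 2) + v) s).2.2.2 - (P.kept (1 / 2 + s)).2.2.2| ≤
              dist (fl (P.kept (1 / 2) + v) s) (P.kept (1 / 2 + s)) := by
            rw [← Real.dist_eq]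
            exact (le_max_right _ _).trans ((le_max_right _ _).trans (le_max_right _ _))
          exact h2.trans h1
      have ht : (fl (P.kept (1 / 2) + v) 1).2.2.2 = 3 / 2 := by
        have h := constant_of_has_deriv_right_zero (a := 0) (b := 1)
          (f := fun s => (fl (P.kept (1 / 2) + v) s).2.2.2 - s)
          (by
            apply Continuous.continuousOn
            exact (hcont.snd.snd.snd).sub continuous_id)
          (by
            intro s hs
            have h1 : HasDerivAt (fun s => (fl (P.kept (1 / 2) + v) s).2.2.2)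
                (P.W (fl (P.kept (1 / 2) + v) s)).2.2.2 s :=
              prt.hasFDerivAt.comp_hasDerivAt s (hfl _ s)
            rw [hWt s (Set.Ico_subset_Icc_self hs)] at h1
            have h2 := h1.sub (hasDerivAt_id s)
            rw [sub_self] at h2
            exact h2.hasDerivWithinAt) 1 (by simp)
        simp only [hfl0] at h
        have h3 : (P.kept (1 / 2) + (v : V4)).2.2.2 = 1 / 2 + (v : V4).2.2.2 := rfl
        rw [h3, (memH _).1 v.2] at h
        linarith
      have h4 : (Φ v).2.2.2 = 0 := by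
        have h5 : (Φ v).2.2.2 = (fl (P.kept (1 / 2) + v) 1).2.2.2 - (1 / 2 + 1) := rfl
        rw [h5, ht]
        norm_num
      have h6 : (πH (Φ v) : V4) = Φ v := by
        rw [πH_apply]
        refine Prod.ext rfl (Prod.ext rfl (Prod.ext rfl ?_))
        exact h4.symm
      rw [h6]
      simp only [Φ]
      abel
  · intro v hv
    have h1 : (πH (M1 (v : V4)) : V4) = v := congrArg Subtype.val hv
    rw [πH_apply] at h1
    have h2 := congrArg (fun p : V4 => p.1) h1
    have h3 := congrArg (fun p : V4 => p.2.1) h1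
    have h4 := congrArg (fun p : V4 => p.2.2.1) h1
    have h5 : (v : V4).2.2.2 = 0 := (memH _).1 v.2
    simp only [M1, MM_apply] at h2 h3 h4
    have he : 1 < exp 1 := by
      have := Real.add_one_lt_exp (one_ne_zero)
      linarith
    have hf : exp (-1) < 1 := by
      rw [Real.exp_lt_one_iff]
      norm_num
    obtain ⟨q, hq⟩ : ∃ q, q = (v : V4).2.1 - P.m1 * (v : V4).1 := ⟨_, rfl⟩
    rw [← hq] at h2 h3 h4
    rw [h2] at h3
    have hq0 : q = 0 := by
      have : q * (1 - exp (-1)) = 0 := by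
        rw [mul_sub, mul_one, hq]
        rw [hq] at h3
        linarith
      rcases mul_eq_zero.1 this with h | h
      · exact h
      · exfalso
        linarith
    rw [hq0] at h2 h4 hq
    have ha : (v : V4).1 = 0 := by
      have : (v : V4).1 * (exp 1 - 1) = 0 := by linarith
      rcases mul_eq_zero.1 this with h | h
      · exact h
      · exfalso
        linarith
    have hb : (v : V4).2.1 = 0 := by
      rw [ha] at hq
      linarith
    have hc : (v : V4).2.2.1 = 0 := by
      have hD : (0 : ℝ) < 1 + ww P (1 / 2) ^ 2 := by positivity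
      rw [div_eq_iff hD.ne'] at h4
      have : (v : V4).2.2.1 * ((1 + ww P (1 / 2) ^ 2) * (exp 1 ^ 2 - 1)) = 0 := by linarith
      rcases mul_eq_zero.1 this with h | h
      · exact h
      · exfalso
        rcases mul_eq_zero.1 h with h | h
        · linarith
        · nlinarith
    apply Subtype.ext
    exact Prod.ext ha (Prod.ext hb (Prod.ext hc h5))

end Pool.Agent.Helper53.Engel
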